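import Pool.Agent.helper53.ORT.Spec

set_option autoImplicit false

namespace Pool.Agent.ORT

open Module Pool.Agent.GS

open scoped BigOperators

/-- The commutator of `k` and `fl B a`. -/
theorem E4_om {F V ι : Type} [Field F] [AddCommGroup V] [Module F V] [Fintype ι]
    {B : LinearMap.BilinForm F V} (hB : Sym B) {k : Equiv.Perm V} (hk : k ∈ SpG B) (a : ι → V) :
    k * fl B a * k⁻¹ * fl B a ∈ Om B := by
  have h := Subgroup.commutator_mem_commutator hk (fl_mem hB a)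
  rw [commutatorElement_def, fl_inv] at h
  exact h

/-- Gluing blocks of norm one. -/
theorem E4_glue (e1 : E1_stmt) {F V : Type} [Field F] [AddCommGroup V] [Module F V]
    {B : LinearMap.BilinForm F V} (hB : Sym B) {k : Equiv.Perm V} (hk : k ∈ SpG B)
    {y : Equiv.Perm V} {s l ρ e : ℕ} (hy : Bk B y s) (A : Fin l × Fin s → V) (R : Fin ρ → V)
    (h : Og B (Sum.elim A R)) (hA : ∀ i, B (A i) (A i) = 1)
    (hR : Gn B y e (k * fl B R * k⁻¹ * fl B R)) :
    Gn B y (2 * l + e + 2 * l) (k * fl B (Sum.elim A R) * k⁻¹ * fl B (Sum.elim A R)) := by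
  have h1 : k * fl B (Sum.elim A R) * k⁻¹ * fl B (Sum.elim A R) =
      (k * fl B A * k⁻¹) * (k * fl B R * k⁻¹ * fl B R) * fl B A := by
    rw [fl_sum h]
    nth_rewrite 2 [fl_comm h]
    group
  rw [h1]
  have hkA : Gn B y (2 * l) (k * fl B A * k⁻¹) := by
    rw [fl_conj hk h.inl]
    exact e1 B hB y s l hy _ (h.inl.mem hk) fun i => by rw [hk.2, hA]
  have hA' : Gn B y (2 * l) (fl B A) := e1 B hB y s l hy _ h.inl hA
  have m1 : k * fl B A * k⁻¹ ∈ SpG B :=
    (SpG B).mul_mem ((SpG B).mul_mem hk (fl_mem hB A)) ((SpG B).inv_mem hk)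
  have m2 : k * fl B R * k⁻¹ * fl B R ∈ SpG B := Om_le B (E4_om hB hk R)
  exact (hkA.mul hR m1.1).mul hA' ((SpG B).mul_mem m1 m2).1

/-- The middle block for a family of norm one (`ρ ≤ 4`, many dimensions). -/
theorem E4_mid (e2 : E2_stmt) (e3 : E3_stmt) {F V : Type} [Field F] [Finite F] [AddCommGroup V]
    [Module F V] [FiniteDimensional F V] {B : LinearMap.BilinForm F V} (h2 : ringChar F ≠ 2)
    (hB : Sym B) {k : Equiv.Perm V} (hk : k ∈ SpG B) {y : Equiv.Perm V} (ρ τ : ℕ)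
    (hy : Bk B y (ρ + τ)) (R : Fin ρ → V) (hR : Og B R) (hR1 : ∀ i, B (R i) (R i) = 1)
    (hn : 3 * ρ + τ + 1 ≤ finrank F V) : Gn B y 4 (k * fl B R * k⁻¹ * fl B R) := by
  obtain ⟨X, hX, hX1, hRX, hkX⟩ := e3 B h2 hB ρ τ R (fun i => k (R i)) hR hn
  refine e2 B hB y k hk ρ τ hy R X hR hX hRX hkX ?_
  rw [Finset.prod_eq_one fun i _ => hR1 i, Finset.prod_eq_one fun i _ => hX1 i, mul_one]
  exact IsSquare.one

theorem E4 (d1 : D1_stmt) (kh : KH_stmt) (kx : KX_stmt) (e1 : E1_stmt) (e2 : E2_stmt)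
    (e3 : E3_stmt) : E4_stmt := by
  intro F V K _ _ _ _ _ _ _ _ _ B h2 hB h7 k hk r hr hr2 hkr β σ j D y hy
  have hm : 0 < finrank F K := finrank_pos
  obtain ⟨hmn, hX⟩ := kx B h2 hB k hk β σ j D
  obtain ⟨l, ρ, hρ, hml⟩ : ∃ l ρ : ℕ, ρ < 4 ∧ finrank F K = 4 * l + ρ :=
    ⟨finrank F K / 4, finrank F K % 4, Nat.mod_lt _ (by norm_num), by omega⟩
  rcases Nat.eq_zero_or_pos l with hl | hl
  · subst hl
    obtain ⟨X, hXo, hXk⟩ := hX (4 - finrank F K) (by omega)
    have hP : ∏ i, B (X i) (X i) ≠ 0 := Finset.prod_ne_zero_iff.2 fun i _ => hXo.n i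
    obtain ⟨β', j', u, D', hj, hu⟩ := d1 (ι := Fin (finrank F K)) B h2 hB k hk β σ j D
      (by simp) (fun i => if i = ⟨0, hm⟩ then ∏ i, B (X i) (X i) else 1) (by
        intro i
        split_ifs
        · exact hP
        · exact one_ne_zero)
    obtain ⟨hOg, hNS⟩ := kh B h2 hB k hk r hr hr2 hkr β' σ j' D' u _ (by
        intro i
        split_ifs
        · exact hP
        · exact one_ne_zero) hu
    refine ⟨_, E4_om hB hk _, ?_, hNS⟩
    refine Gn.mono ?_ (le_max_left _ _)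
    refine e2 B hB y k hk (finrank F K) (4 - finrank F K) ?_ _ X hOg hXo ?_ ?_ ?_
    · have h4 : finrank F K + (4 - finrank F K) = 4 := by omega
      rw [h4]
      exact hy
    · intro i i'
      obtain ⟨c₁, c₂, hc⟩ := hj (u i)
      rw [hc, map_add, LinearMap.add_apply, (hXk c₁ i').1, (hXk c₂ i').2, add_zero]
    · intro i i'
      obtain ⟨c₁, c₂, hc⟩ := hj (u i)
      have h3 : k (k (j c₂)) = k (j (σ * c₂)) - j c₂ := by
        rw [← D.s c₂, hk.1.1, pinv, add_sub_cancel_right]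
      rw [hc, hk.1.1, h3, map_add, map_sub, LinearMap.add_apply, LinearMap.sub_apply,
        (hXk c₁ i').2, (hXk c₂ i').1, (hXk (σ * c₂) i').2, sub_zero, add_zero]
    · have h5 : ∏ i, B (j' (u i)) (j' (u i)) = ∏ i, B (X i) (X i) := by
        rw [Finset.prod_congr rfl fun i _ => hu i i]
        simp
      rw [h5]
      exact ⟨_, rfl⟩
  · obtain ⟨β', j', u, D', hj, hu⟩ := d1 (ι := (Fin l × Fin 4) ⊕ Fin ρ) B h2 hB k hk β σ j D
      (by simp; omega) (fun _ => 1) (fun _ => one_ne_zero)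
    obtain ⟨hOg, hNS⟩ := kh B h2 hB k hk r hr hr2 hkr β' σ j' D' u (fun _ => 1)
      (fun _ => one_ne_zero) hu
    refine ⟨_, E4_om hB hk _, ?_, hNS⟩
    have h1 : ∀ i, B (j' (u i)) (j' (u i)) = 1 := fun i => by rw [hu, if_pos rfl]
    have hs : (fun i => j' (u i)) = Sum.elim (fun i => j' (u (Sum.inl i)))
        (fun i => j' (u (Sum.inr i))) := by
      ext i
      rcases i with i | i <;> rfl
    rw [hs] at hOg ⊢
    rcases Nat.eq_zero_or_pos ρ with h0 | h0
    · subst h0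
      have hR : Gn B y 0 (k * fl B (fun i : Fin 0 => j' (u (Sum.inr i))) * k⁻¹ *
          fl B (fun i : Fin 0 => j' (u (Sum.inr i)))) := by
        have h6 : fl B (fun i : Fin 0 => j' (u (Sum.inr i))) = 1 := by
          ext x
          rw [fl_of_orth hOg.inr fun i => i.elim0]
          rfl
        rw [h6, mul_one, mul_one, mul_inv_cancel]
        exact Gn.one 0
      refine (E4_glue e1 hB hk hy _ _ hOg (fun i => h1 _) hR).mono (le_trans ?_ (le_max_right _ _))
      omega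
    · have h4 : ρ + (4 - ρ) = 4 := by omega
      have hR := E4_mid e2 e3 h2 hB hk ρ (4 - ρ) (by rw [h4]; exact hy)
        (fun i => j' (u (Sum.inr i))) hOg.inr (fun i => h1 _) (by omega)
      refine (E4_glue e1 hB hk hy _ _ hOg (fun i => h1 _) hR).mono (le_trans ?_ (le_max_right _ _))
      omega

end Pool.Agent.ORT
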